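import Mathlib
import Pool.Agent.T6.H44.Hardy.Cst
import Pool.Agent.T6.H44.Hardy.Tst

/-!
# The best constant in the weighted Hardy inequality with weight `(1 + |x|²) ^ α`

For every `n ≥ 3` and every real `α ≠ -(n-2)/2` the best constant of the problem is
* `-2α` if `α < -n`,
* `-4α - 2n` if `-n ≤ α < -(n+2)/2`,
* `(n + 2α - 2)² / 4` if `-(n+2)/2 ≤ α ≤ 1 + n/2`,
* `2n(α - 1)` if `α > 1 + n/2`.
-/

set_option autoImplicit false

open MeasureTheory Set Metric Filter Topology
open scoped ContDiff

namespace Pool.Agent.Results.MP_5b99fd_an.BestConstant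

/-- The admissible functions: smooth, compactly supported, not identically zero, and, when
`α < -(n-2)/2`, with zero integral against `(1 + |x|²) ^ (α - 1)`. -/
def Admissible (n : ℕ) (α : ℝ) (u : EuclideanSpace ℝ (Fin n) → ℝ) : Prop :=
  ContDiff ℝ ∞ u ∧ HasCompactSupport u ∧ u ≠ 0 ∧
    (α < -(((n : ℝ) - 2) / 2) → ∫ x, (1 + ‖x‖ ^ 2) ^ (α - 1) * u x = 0)

/-- The Hardy quotient. -/
noncomputable def quotient {n : ℕ} (α : ℝ) (u : EuclideanSpace ℝ (Fin n) → ℝ) : ℝ :=
  (∫ x, (1 + ‖x‖ ^ 2) ^ α * ‖gradient u x‖ ^ 2) / ∫ x, (1 + ‖x‖ ^ 2) ^ (α - 1) * u x ^ 2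

/-- The best constant: the infimum of the quotient over the admissible functions. -/
noncomputable def bestConstant (n : ℕ) (α : ℝ) : ℝ :=
  sInf {q : ℝ | ∃ u : EuclideanSpace ℝ (Fin n) → ℝ, Admissible n α u ∧ q = quotient α u}

/-- The value of the best constant. -/
noncomputable def value (n : ℕ) (α : ℝ) : ℝ :=
  if α < -(n : ℝ) then -2 * α
  else if α < -(((n : ℝ) + 2) / 2) then -4 * α - 2 * n
  else if α ≤ 1 + (n : ℝ) / 2 then ((n : ℝ) + 2 * α - 2) ^ 2 / 4
  else 2 * n * (α - 1)

open Pool.Agent.T6.H44.Hardy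

theorem norm_gradient {n : ℕ} (u : E n → ℝ) (x : E n) : ‖gradient u x‖ = ‖fderiv ℝ u x‖ := by
  unfold gradient
  rw [LinearIsometryEquiv.norm_map]

theorem quotient_eq {n : ℕ} (α : ℝ) (u : E n → ℝ) :
    quotient α u = (∫ x, wt α x * ‖fderiv ℝ u x‖ ^ 2) / ∫ x, wt (α - 1) x * u x ^ 2 := by
  unfold quotient
  simp only [norm_gradient]
  rfl

theorem den_pos {n : ℕ} {α : ℝ} {u : E n → ℝ} (hu : Continuous u) (hc : HasCompactSupport u)
    (h : u ≠ 0) : 0 < ∫ x, wt (α - 1) x * u x ^ 2 := by
  obtain ⟨x, hx⟩ := Function.ne_iff.1 h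
  refine Continuous.integral_pos_of_hasCompactSupport_nonneg_nonzero (x := x)
    ((wt_cont _).mul (hu.pow 2)) ?_ ?_ ?_
  · exact (hc.comp_left (g := fun t : ℝ => t ^ 2) (by norm_num)).mul_left
  · intro y
    exact mul_nonneg (wt_pos _ y).le (sq_nonneg _)
  · exact mul_ne_zero (wt_pos _ _).ne' (pow_ne_zero 2 hx)

/-- lower bounds for the quotient are the same as inequalities -/
theorem lower_iff {n : ℕ} {α c : ℝ} :
    c ∈ lowerBounds {q : ℝ | ∃ u : E n → ℝ, Admissible n α u ∧ q = quotient α u} ↔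
      ∀ u : E n → ℝ, ContDiff ℝ ∞ u → HasCompactSupport u →
        (α < -(((n : ℝ) - 2) / 2) → ∫ x, wt (α - 1) x * u x = 0) →
        c * ∫ x, wt (α - 1) x * u x ^ 2 ≤ ∫ x, wt α x * ‖fderiv ℝ u x‖ ^ 2 := by
  constructor
  · intro h u hu hc h0
    by_cases hz : u = 0
    · have e1 : ∀ x, u x = 0 := fun x => by rw [hz]; rfl
      have e2 : (∫ x, wt (α - 1) x * u x ^ 2) = 0 := by
        simp [e1]
      rw [e2, mul_zero]
      exact integral_nonneg fun x => mul_nonneg (wt_pos _ x).le (sq_nonneg _)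
    · have h1 := h ⟨u, ⟨hu, hc, hz, h0⟩, rfl⟩
      rw [quotient_eq, le_div_iff₀ (den_pos hu.continuous hc hz)] at h1
      exact h1
  · rintro h q ⟨u, ⟨hu, hc, hz, h0⟩, rfl⟩
    rw [quotient_eq, le_div_iff₀ (den_pos hu.continuous hc hz)]
    exact h u hu hc h0

theorem nonneg_int {n : ℕ} (a : ℝ) (u : E n → ℝ) : 0 ≤ ∫ x, wt a x * u x ^ 2 :=
  integral_nonneg fun x => mul_nonneg (wt_pos _ x).le (sq_nonneg _)

theorem value_lower {n : ℕ} (hn : 3 ≤ n) {α : ℝ} (hα : α ≠ -(((n : ℝ) - 2) / 2)) {u : E n → ℝ}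
    (hu : ContDiff ℝ ∞ u) (hc : HasCompactSupport u)
    (h0 : α < -(((n : ℝ) - 2) / 2) → ∫ x, wt (α - 1) x * u x = 0) :
    value n α * ∫ x, wt (α - 1) x * u x ^ 2 ≤ ∫ x, wt α x * ‖fderiv ℝ u x‖ ^ 2 := by
  have hn3 : (3 : ℝ) ≤ n := by exact_mod_cast hn
  have hu1 : ContDiff ℝ 1 u := hu.of_le (by exact_mod_cast le_top)
  have hN := nonneg_int (α - 1) u
  have hM := nonneg_int (α - 2) u
  rcases lt_or_gt_of_ne hα with h | h
  · obtain ⟨m, rfl⟩ : ∃ m, n = m + 1 := ⟨n - 1, by omega⟩
    have h0' := h0 h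
    have hneg : α < 0 := by linarith
    by_cases h2 : α < -(((m + 1 : ℕ) : ℝ) + 2) / 2
    · have key := constr (β := 0) (A := 2 * (α - 0) + (m + 1 : ℕ))
        (C := -2 * (2 * (α - 0) + (m + 1 : ℕ)) * (1 - 0)) hneg rfl rfl (by linarith)
        (by linarith) hu1 hc h0'
      have hval : value (m + 1) α = min (-2 * (2 * (α - 0) + (m + 1 : ℕ)) * (1 - 0)) (-2 * α) := by
        unfold value
        by_cases h3 : α < -((m + 1 : ℕ) : ℝ)
        · rw [if_pos h3, min_eq_right (by linarith)]
        · rw [if_neg h3, if_pos (by linarith), min_eq_left (by linarith)]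
          ring
      rw [hval]
      exact key
    · have h3 : ¬ α < -((m + 1 : ℕ) : ℝ) := by linarith
      have hβ : 0 ≤ (2 * α + (m + 1 : ℕ) + 2) / 4 := by linarith
      have key := constr (β := (2 * α + (m + 1 : ℕ) + 2) / 4)
        (A := 2 * (α - (2 * α + (m + 1 : ℕ) + 2) / 4) + (m + 1 : ℕ))
        (C := -2 * (2 * (α - (2 * α + (m + 1 : ℕ) + 2) / 4) + (m + 1 : ℕ)) *
          (1 - (2 * α + (m + 1 : ℕ) + 2) / 4)) hneg rfl rfl (by nlinarith)
        (mul_nonneg hβ (by linarith)) hu1 hc h0'
      have hval : value (m + 1) α = min (-2 * (2 * (α - (2 * α + (m + 1 : ℕ) + 2) / 4) +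
          (m + 1 : ℕ)) * (1 - (2 * α + (m + 1 : ℕ) + 2) / 4)) (-2 * α) := by
        unfold value
        rw [if_neg h3, if_neg (by linarith), if_pos (by linarith), min_eq_left (by nlinarith)]
        ring
      rw [hval]
      exact key
  · by_cases h2 : α ≤ 1 + (n : ℝ) / 2
    · have hval : value n α = ((n : ℝ) + 2 * α - 2) ^ 2 / 4 := by
        unfold value
        rw [if_neg (by linarith), if_neg (by linarith), if_pos h2]
      rw [hval]
      have key := super hu1 hc α (((n : ℝ) + 2 * α - 2) / 4)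
      have e1 : 0 ≤ -(4 * (((n : ℝ) + 2 * α - 2) / 4) * (α - 1 - ((n : ℝ) + 2 * α - 2) / 4)) := by
        nlinarith
      have e2 := mul_nonneg e1 hM
      refine le_trans ?_ key
      have e3 : (2 * (((n : ℝ) + 2 * α - 2) / 4) * (n + 2 * (α - 1 - ((n : ℝ) + 2 * α - 2) / 4))) =
          ((n : ℝ) + 2 * α - 2) ^ 2 / 4 := by ring
      rw [e3]
      linarith
    · have hval : value n α = 2 * n * (α - 1) := by
        unfold value
        rw [if_neg (by linarith), if_neg (by linarith), if_neg h2]
      rw [hval]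
      have key := super hu1 hc α (α - 1)
      refine le_trans (le_of_eq ?_) key
      ring

theorem value_upper {n : ℕ} (hn : 3 ≤ n) {α c : ℝ} (hα : α ≠ -(((n : ℝ) - 2) / 2))
    (h : ∀ u : E n → ℝ, ContDiff ℝ ∞ u → HasCompactSupport u →
        (α < -(((n : ℝ) - 2) / 2) → ∫ x, wt (α - 1) x * u x = 0) →
        c * ∫ x, wt (α - 1) x * u x ^ 2 ≤ ∫ x, wt α x * ‖fderiv ℝ u x‖ ^ 2) : c ≤ value n α := by
  have hn3 : (3 : ℝ) ≤ n := by exact_mod_cast hn
  have hn1 : 1 ≤ n := by omega
  rcases lt_or_gt_of_ne hα with h1 | h1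
  · have hc : LBc n α c := fun u hu hcs h0 => h u hu hcs fun _ => h0
    by_cases h3 : α < -(n : ℝ)
    · have hval : value n α = -2 * α := by
        unfold value
        rw [if_pos h3]
      rw [hval]
      exact lb_lin hn1 hc (by linarith)
    · by_cases h4 : α < -(((n : ℝ) + 2) / 2)
      · have hval : value n α = -4 * α - 2 * n := by
          unfold value
          rw [if_neg h3, if_pos h4]
        rw [hval]
        have key := lb_c hc (γ := -1) (by linarith) (by linarith)
        have r1 := J_rec (n := n) (a := -α - 1) (by linarith)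
        have r2 := J_rec (n := n) (a := -α) (by linarith)
        have p1 := J_pos (n := n) (a := -α - 1) (by linarith)
        have p2 := J_pos (n := n) (a := -α) (by linarith)
        have p3 := J_pos (n := n) (a := -α + 1) (by linarith)
        have a1 : 2 * -1 + 1 - α = -α - 1 := by ring
        have a2 : -1 + 1 - α = -α := by ring
        have a3 : 1 - α = -α + 1 := by ring
        have a4 : -α - 1 + 1 = -α := by ring
        rw [a1, a2, a3] at key
        rw [a4] at r1
        set b : ℝ := -α with hb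
        have hb1 : 0 < 2 * (b - 1) - n := by linarith
        have hb2 : 0 < 2 * b - n := by linarith
        have hb3 : 0 < b - 1 := by linarith
        have hb4 : 0 < b := by linarith
        -- everything in terms of `J b`
        have s1 : J n (b - 1) = 2 * (b - 1) * J n b / (2 * (b - 1) - n) := by
          rw [eq_div_iff hb1.ne']
          linarith
        have s2 : J n (b + 1) = (2 * b - n) * J n b / (2 * b) := by
          rw [eq_div_iff (by positivity)]
          linarith
        have s3 : J n (b - 1) - J n b ^ 2 / J n (b + 1) =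
            2 * n / ((2 * (b - 1) - n) * (2 * b - n)) * J n b := by
          rw [s1, s2]
          field_simp
          ring
        have s4 : 4 * (-1 : ℝ) ^ 2 * (n / (2 * (b - 1))) * J n (b - 1) =
            2 * (2 * b - n) * (2 * n / ((2 * (b - 1) - n) * (2 * b - n)) * J n b) := by
          rw [s1]
          field_simp
          ring
        rw [s3, s4] at key
        have s5 : 0 < 2 * (n : ℝ) / ((2 * (b - 1) - n) * (2 * b - n)) * J n b := by positivity
        have s6 := le_of_mul_le_mul_right key s5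
        have : α = -b := by rw [hb]; ring
        rw [this]
        linarith
      · have hval : value n α = ((n : ℝ) + 2 * α - 2) ^ 2 / 4 := by
          unfold value
          rw [if_neg h3, if_neg h4, if_pos (by linarith)]
        rw [hval]
        exact lb_ess_c hc hn1 (by linarith)
  · have hc : LBu n α c := fun u hu hcs => h u hu hcs fun h2 => absurd h2 (not_lt.2 h1.le)
    by_cases h2 : α ≤ 1 + (n : ℝ) / 2
    · have hval : value n α = ((n : ℝ) + 2 * α - 2) ^ 2 / 4 := by
        unfold value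
        rw [if_neg (by linarith), if_neg (by linarith), if_pos h2]
      rw [hval]
      exact lb_ess_u hc hn1
    · have hval : value n α = 2 * n * (α - 1) := by
        unfold value
        rw [if_neg (by linarith), if_neg (by linarith), if_neg h2]
      rw [hval]
      push Not at h2
      have key := lb_u hc (γ := α - 1) (by linarith)
      refine key.trans (le_of_eq ?_)
      have e : 2 * (2 * (α - 1) + 1 - α) = 2 * (α - 1) := by ring
      rw [e]
      have : α - 1 ≠ 0 := by linarith
      field_simp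
      ring

/-- **The best constant for every `n ≥ 3` and every `α ≠ -(n-2)/2`.** -/
theorem result :
    ∀ n : ℕ, 3 ≤ n → ∀ α : ℝ, α ≠ -(((n : ℝ) - 2) / 2) →
      IsGLB {q : ℝ | ∃ u : EuclideanSpace ℝ (Fin n) → ℝ, Admissible n α u ∧ q = quotient α u}
        (value n α) ∧
      bestConstant n α = value n α := by
  intro n hn α hα
  have h : IsGLB {q : ℝ | ∃ u : E n → ℝ, Admissible n α u ∧ q = quotient α u} (value n α) := by
    constructor
    · rw [lower_iff]
      intro u hu hc h0
      exact value_lower hn hα hu hc h0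
    · intro c hc
      rw [lower_iff] at hc
      exact value_upper hn hα hc
  refine ⟨h, ?_⟩
  refine h.csInf_eq ?_
  by_contra hne
  rw [Set.not_nonempty_iff_eq_empty] at hne
  rw [hne] at h
  have := h.2 (show value n α + 1 ∈ lowerBounds ∅ by simp)
  linarith

end Pool.Agent.Results.MP_5b99fd_an.BestConstant
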